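import Pool.Agent.Helper83.EP.Step
import Pool.Agent.Helper53.EP.Span
import Pool.Agent.Helper38.EP.E6

/-!
# Exponential polynomials: assembly
-/

set_option autoImplicit false

namespace Pool.Agent.Helper83.EP

open FirstOrder Pool.Agent.Helper20.Spectra Pool.Agent.Helper58.QD Pool.Agent.Helper29.MW Pool.Agent.Helper14.SS
open Pool.Agent.Helper31.QD (Au)
open Pool.Agent.Helper83.FM
open Filter

variable {S : Type} {ar : S → ℕ}

/-- few models: boundedly many twin classes -/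
theorem few_classes [Finite S] (ψ : MFm S ar 0 0) {C : ℕ}
    (h : ∀ n, 1 ≤ n → cnt (fun (n : ℕ) (R : Interp S ar (Fin n)) => MSat R ψ) n ≤ C ^ n) :
    ∃ r, ∀ (n : ℕ) (R : Interp S ar (Fin n)) (T : Finset (Fin n)), MSat R ψ → NT R T → T.card ≤ r := by
  classical
  obtain ⟨q₁, hD⟩ := dropM ψ
  have hP : PermInv (fun (n : ℕ) (R : Interp S ar (Fin n)) => MSat R ψ) :=
    fun n R π hR => (MSat.iso R π.symm ψ).1 hR
  obtain ⟨k, hk⟩ : ∃ k, ∀ s, ar s ≤ k := by
    have := Fintype.ofFinite S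
    exact ⟨Finset.univ.sup ar, fun s => Finset.le_sup (f := ar) (Finset.mem_univ s)⟩
  by_contra hcon
  push Not at hcon
  have hall : ∀ r, ∃ (n : ℕ) (R : Interp S ar (Fin n)) (T : Finset (Fin n)), MSat R ψ ∧
      r ≤ T.card ∧ ∀ x ∈ T, ∀ y ∈ T, x ≠ y → ¬ Au R (Equiv.swap x y) := by
    intro r
    obtain ⟨n, R, T, hR, hT, hr⟩ := hcon r
    exact ⟨n, R, T, hR, hr.le, hT⟩
  set q := k + q₁ + 3 with hq
  set D := 2 * k * k + k + q with hD'
  obtain ⟨n, hn, R, hR, hcl⟩ := min_modelQ hD hk hall (max (C ^ (2 * D) + 1) (9 ^ D))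
  obtain ⟨A, hA, hAn⟩ := exists_ind (pad hk R) q (by omega) (fun C hC =>
    hcl C fun x hx y hy => tw_of_pad hk (hC x hx y hy))
  rw [Fintype.card_fin] at hAn
  have h1 := many_modelsQ hP hk hR hA hAn ((le_max_right _ _).trans hn)
  have hn1 : C ^ (2 * D) + 1 ≤ n := (le_max_left _ _).trans hn
  have h2 : cnt (fun (n : ℕ) (R : Interp S ar (Fin n)) => MSat R ψ) n ^ (2 * D) ≤ (C ^ n) ^ (2 * D) :=
    Nat.pow_le_pow_left (h n (by omega)) _
  have h3 : (C ^ n) ^ (2 * D) = (C ^ (2 * D)) ^ n := by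
    rw [← pow_mul, ← pow_mul, mul_comm]
  have h4 : n ^ n ≤ (C ^ (2 * D)) ^ n := h1.trans (h2.trans h3.le)
  have h5 := (Nat.pow_le_pow_iff_left (show n ≠ 0 by omega)).1 h4
  omega

/-- sum over the labellings, by truncated sizes -/
theorem sum_sizes {n m Q : ℕ} (hQ : 1 ≤ Q) (α : (Fin m → ℕ) → ℚ) :
    (∑ f : Fin n → Fin m, (if Function.Surjective f then α (fun i => min Q (Nat.card {x // f x = i})) else 0)) =
      ∑ τ : Fin m → Fin (Q + 1), (if ∀ i, 1 ≤ (τ i : ℕ) then α (fun i => (τ i : ℕ)) else 0) *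
        (Nat.card {f : Fin n → Fin m // ∀ i, min Q (Nat.card {x // f x = i}) = (τ i : ℕ)} : ℚ) := by
  let sz : (Fin n → Fin m) → (Fin m → Fin (Q + 1)) := fun f i =>
    ⟨min Q (Nat.card {x // f x = i}), by omega⟩
  rw [← Finset.sum_fiberwise (s := Finset.univ) (g := sz)]
  refine Finset.sum_congr rfl fun τ _ => ?_
  have h1 : ∀ f ∈ Finset.univ.filter (fun f => sz f = τ),
      (if Function.Surjective f then α (fun i => min Q (Nat.card {x // f x = i})) else 0) =
        (if ∀ i, 1 ≤ (τ i : ℕ) then α (fun i => (τ i : ℕ)) else 0) := by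
    intro f hf
    have h2 : sz f = τ := (Finset.mem_filter.1 hf).2
    have h3 : ∀ i, min Q (Nat.card {x // f x = i}) = (τ i : ℕ) := fun i =>
      congrArg Fin.val (congrFun h2 i)
    have h4 : (fun i => min Q (Nat.card {x // f x = i})) = fun i => (τ i : ℕ) := funext h3
    rw [h4]
    refine if_congr ?_ rfl rfl
    constructor
    · intro hs i
      rw [← h3 i]
      obtain ⟨x, hx⟩ := hs i
      have : Nonempty {x // f x = i} := ⟨⟨x, hx⟩⟩
      have h5 : 0 < Nat.card {x // f x = i} := Nat.card_pos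
      exact le_min hQ h5
    · intro hs i
      have h5 := hs i
      rw [← h3 i] at h5
      have h6 : 0 < Nat.card {x // f x = i} := lt_of_lt_of_le (by omega) (h5.trans (min_le_right _ _))
      obtain ⟨x, hx⟩ := (Nat.card_pos_iff.1 h6).1
      exact ⟨x, hx⟩
  rw [Finset.sum_congr rfl h1, Finset.sum_const, nsmul_eq_mul, mul_comm]
  congr 1
  rw [Nat.card_eq_fintype_card, Fintype.card_subtype]
  congr 2
  ext f
  rw [Finset.mem_filter, Finset.mem_filter]
  refine and_congr_right fun _ => ?_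
  constructor
  · intro h i
    exact congrArg Fin.val (congrFun h i)
  · intro h
    funext i
    exact Fin.ext (h i)

/-- assembly -/
theorem exp_poly_of [Finite S]
    (hE3 : ∀ ψ : MFm S ar 0 0, ∃ Q : ℕ, 1 ≤ Q ∧ ∀ m : ℕ, ∃ α : (Fin m → ℕ) → ℕ,
      ∀ (M : Type) [Finite M] [DecidableEq M] (f : M → Fin m),
        aN ψ f = α (fun i => min Q (Nat.card {x // f x = i})))
    (hE5 : ∀ (ψ : MFm S ar 0 0) (r : ℕ), (∀ (n : ℕ) (R : Interp S ar (Fin n)) (T : Finset (Fin n)), MSat R ψ →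
      NT R T → T.card ≤ r) → ∀ n : ℕ,
      (Nat.card {R : Interp S ar (Fin n) // MSat R ψ} : ℚ) = ∑ m ∈ Finset.range (r + 1), (1 / (m.factorial : ℚ)) *
        ∑ f : Fin n → Fin m, (if Function.Surjective f then (aN ψ f : ℚ) else 0))
    (φ : SFm (RelLang S ar) 0 0) {C : ℕ}
    (h : ∀ n, 1 ≤ n → Pool.Agent.Helper40.MCM.countM φ n ≤ C ^ n) :
    ∃ (m : ℕ) (p : Fin m → Polynomial ℚ), ∀ᶠ n : ℕ in Filter.atTop,
      (Pool.Agent.Helper40.MCM.countM φ n : ℚ) = ∑ j, (p j).eval (n : ℚ) * ((j : ℕ) + 1 : ℚ) ^ n := by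
  classical
  obtain ⟨ψ, hψ⟩ := Helper6.MC.exists_mfm φ
  have hcnt : ∀ n, Nat.card {R : Interp S ar (Fin n) // MSat R ψ} =
      Helper40.MCM.countM φ n := fun n =>
    Nat.card_congr (Equiv.subtypeEquivRight fun R => (hψ (Fin n) R).symm)
  obtain ⟨r, hr⟩ := few_classes ψ (C := C) (fun n hn => (hcnt n).le.trans (h n hn))
  obtain ⟨Q, hQ, hα⟩ := hE3 ψ
  choose α hα using hα
  choose F hF hF' using fun (m : ℕ) (τ : Fin m → ℕ) => Pool.Agent.Helper53.EP.count_trunc Q m τ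
  have key : (fun n : ℕ => (Helper40.MCM.countM φ n : ℚ)) =
      ∑ m ∈ Finset.range (r + 1), (1 / (m.factorial : ℚ)) • ∑ τ : Fin m → Fin (Q + 1),
        (if ∀ i, 1 ≤ (τ i : ℕ) then (α m (fun i => (τ i : ℕ)) : ℚ) else 0) • F m (fun i => (τ i : ℕ)) := by
    funext n
    rw [← hcnt n, hE5 ψ r hr n, Finset.sum_apply]
    refine Finset.sum_congr rfl fun m _ => ?_
    rw [Pi.smul_apply, smul_eq_mul, Finset.sum_apply]
    congr 1
    have h1 : ∀ f : Fin n → Fin m, (if Function.Surjective f then (aN ψ f : ℚ) else 0) =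
        if Function.Surjective f then
          ((fun τ => (α m τ : ℚ)) (fun i => min Q (Nat.card {x // f x = i}))) else 0 := by
      intro f
      rw [hα m (Fin n) f]
    rw [Finset.sum_congr rfl fun f _ => h1 f]
    refine (sum_sizes hQ (fun τ => (α m τ : ℚ))).trans ?_
    refine Finset.sum_congr rfl fun τ _ => ?_
    rw [Pi.smul_apply, smul_eq_mul, hF' m (fun i => (τ i : ℕ)) (Fin n), Nat.card_eq_fintype_card (α := Fin n),
      Fintype.card_fin]
  have hmem : (fun n : ℕ => (Helper40.MCM.countM φ n : ℚ)) ∈ EP := by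
    rw [key]
    exact Submodule.sum_mem _ fun m _ => Submodule.smul_mem _ _ (Submodule.sum_mem _ fun τ _ =>
      Submodule.smul_mem _ _ (hF m _))
  exact Pool.Agent.Helper38.EP.EP_eventually hmem

end Pool.Agent.Helper83.EP
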