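import Pool.Agent.Helper83.FM.JumpM

/-!
# Exponential polynomials and labelled twin classes: definitions
-/

set_option autoImplicit false

namespace Pool.Agent.Helper83.EP

open FirstOrder Pool.Agent.Helper20.Spectra Pool.Agent.Helper58.QD Pool.Agent.Helper29.MW Pool.Agent.Helper14.SS
open Pool.Agent.Helper31.QD (Au)

variable {S : Type} {ar : S → ℕ}

/-- the fibres of `f` are the twin classes of `R` -/
def Lab {M : Type} [DecidableEq M] {m : ℕ} (R : Interp S ar M) (f : M → Fin m) : Prop :=
  ∀ x y, f x = f y ↔ Au R (Equiv.swap x y)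

/-- the number of models with the twin classes `f` -/
noncomputable def aN {M : Type} [DecidableEq M] {m : ℕ} (ψ : MFm S ar 0 0) (f : M → Fin m) : ℕ :=
  Nat.card {R : Interp S ar M // Lab R f ∧ MSat R ψ}

/-- `n ↦ n (n - 1) ... (n - t + 1) j ^ (n - t)` -/
def eb (t j : ℕ) : ℕ → ℚ := fun n => (n.descFactorial t : ℚ) * (j : ℚ) ^ (n - t)

/-- exponential polynomials -/
def EP : Submodule ℚ (ℕ → ℚ) := Submodule.span ℚ (Set.range fun p : ℕ × ℕ => eb p.1 p.2)

end Pool.Agent.Helper83.EP
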