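import Pool.Agent.Helper83.EP.Main
import Pool.Agent.Helper40.MC.Main

/-!
# The sharp gap between polynomial and exponential growth of the number of models
-/

set_option autoImplicit false

namespace Pool.Agent.Helper83.EP

open FirstOrder Pool.Agent.Helper20.Spectra Pool.Agent.Helper58.QD Pool.Agent.Helper29.MW Pool.Agent.Helper14.SS
open Pool.Agent.Helper40.MCM Filter Topology

/-- `p(n) a ^ n / b ^ n → 0` for `a < b` -/
lemma poly_tendsto (p : Polynomial ℝ) {a b : ℝ} (ha : 0 ≤ a) (hab : a < b) :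
    Tendsto (fun n : ℕ => p.eval (n : ℝ) * a ^ n / b ^ n) atTop (𝓝 0) := by
  have hb : 0 < b := lt_of_le_of_lt ha hab
  have h1 : |a / b| < 1 := by
    rw [abs_of_nonneg (by positivity), div_lt_one hb]
    exact hab
  have h2 : ∀ k : ℕ, Tendsto (fun n : ℕ => (n : ℝ) ^ k * (a / b) ^ n) atTop (𝓝 0) := fun k =>
    tendsto_pow_const_mul_const_pow_of_abs_lt_one k h1
  have h3 : Tendsto (fun n : ℕ => ∑ k ∈ Finset.range (p.natDegree + 1), p.coeff k * ((n : ℝ) ^ k * (a / b) ^ n))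
      atTop (𝓝 (∑ k ∈ Finset.range (p.natDegree + 1), p.coeff k * 0)) :=
    tendsto_finsetSum _ fun k _ => (h2 k).const_mul _
  simp only [mul_zero, Finset.sum_const_zero] at h3
  refine h3.congr fun n => ?_
  rw [Polynomial.eval_eq_sum_range, div_pow, Finset.sum_mul, Finset.sum_div]
  refine Finset.sum_congr rfl fun k _ => ?_
  ring

/-- a nonzero polynomial is bounded below at large numbers -/
lemma poly_lower {p : Polynomial ℝ} (hp : p ≠ 0) : ∃ δ : ℝ, 0 < δ ∧ ∀ᶠ n : ℕ in atTop, δ ≤ |p.eval (n : ℝ)| := by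
  by_cases hd : p.natDegree = 0
  · rw [Polynomial.natDegree_eq_zero] at hd
    obtain ⟨c, rfl⟩ := hd
    have hc : c ≠ 0 := by
      rintro rfl
      exact hp (by simp)
    exact ⟨|c|, abs_pos.2 hc, Eventually.of_forall fun n => by simp⟩
  · have h1 : Tendsto (fun x : ℝ => |p.eval x|) atTop atTop :=
      p.abs_tendsto_atTop (Polynomial.natDegree_pos_iff_degree_pos.1 (Nat.pos_of_ne_zero hd))
    refine ⟨1, one_pos, ?_⟩
    exact (h1.comp tendsto_natCast_atTop_atTop).eventually_ge_atTop 1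

/-- the dichotomy for exponential polynomials -/
theorem gap_num {N : ℕ → ℕ} {m : ℕ} {p : Fin m → Polynomial ℚ}
    (h : ∀ᶠ n : ℕ in atTop, (N n : ℚ) = ∑ j, (p j).eval (n : ℚ) * ((j : ℕ) + 1 : ℚ) ^ n) :
    (∃ c : ℕ, ∀ n, 2 ≤ n → N n ≤ n ^ c) ∨ ∃ c : ℕ, ∀ᶠ n : ℕ in atTop, 2 ^ n ≤ 2 ^ c * N n := by
  classical
  -- real coefficients
  let P : Fin m → Polynomial ℝ := fun j => (p j).map (algebraMap ℚ ℝ)
  have hR : ∀ᶠ n : ℕ in atTop, (N n : ℝ) = ∑ j, (P j).eval (n : ℝ) * ((j : ℕ) + 1 : ℝ) ^ n := by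
    filter_upwards [h] with n hn
    have h1 := congrArg (fun x : ℚ => (x : ℝ)) hn
    simp only [Rat.cast_natCast, Rat.cast_sum, Rat.cast_mul, Rat.cast_pow, Rat.cast_add, Rat.cast_one] at h1
    rw [h1]
    refine Finset.sum_congr rfl fun j _ => ?_
    congr 1
    have := Polynomial.eval_map_algebraMap (p j) (n : ℝ)
    rw [this]
    have h2 := Polynomial.aeval_algebraMap_apply ℝ (n : ℚ) (p j)
    simp only [map_natCast, Polynomial.coe_aeval_eq_eval, eq_ratCast] at h2
    exact h2.symm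
  by_cases hall : ∀ j : Fin m, 1 ≤ (j : ℕ) → P j = 0
  · -- polynomial
    left
    obtain ⟨q, hq⟩ : ∃ q : Polynomial ℝ, ∀ᶠ n : ℕ in atTop, (N n : ℝ) = q.eval (n : ℝ) := by
      rcases Nat.eq_zero_or_pos m with hm | hm
      · subst hm
        refine ⟨0, ?_⟩
        filter_upwards [hR] with n hn
        rw [hn]
        simp
      · refine ⟨P ⟨0, hm⟩, ?_⟩
        filter_upwards [hR] with n hn
        rw [hn, Finset.sum_eq_single (⟨0, hm⟩ : Fin m)]
        · simp
        · intro j _ hj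
          rw [hall j (by
            by_contra hcon
            exact hj (Fin.ext (by simpa using hcon)))]
          simp
        · intro hn'
          exact absurd (Finset.mem_univ _) hn'
    -- growth of a polynomial
    have h1 : Tendsto (fun n : ℕ => q.eval (n : ℝ) * 1 ^ n / 2 ^ n) atTop (𝓝 0) := poly_tendsto q zero_le_one one_lt_two
    have h2 : ∃ k : ℕ, ∀ᶠ n : ℕ in atTop, q.eval (n : ℝ) ≤ (n : ℝ) ^ k := by
      have h3 : Tendsto (fun x : ℝ => q.eval x / ((Polynomial.X ^ (q.natDegree + 1) : Polynomial ℝ).eval x)) atTop (𝓝 0) := by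
        apply Polynomial.div_tendsto_zero_of_degree_lt
        rw [Polynomial.degree_X_pow]
        exact lt_of_le_of_lt Polynomial.degree_le_natDegree (by exact_mod_cast Nat.lt_succ_self _)
      refine ⟨q.natDegree + 1, ?_⟩
      have h4 := (h3.comp tendsto_natCast_atTop_atTop).eventually_le_const (show (0 : ℝ) < 1 by norm_num)
      filter_upwards [h4, eventually_ge_atTop 1] with n hn hn1
      have h5 : (0 : ℝ) < (n : ℝ) ^ (q.natDegree + 1) := by
        have : (0 : ℝ) < n := by exact_mod_cast hn1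
        positivity
      simp only [Function.comp_apply, Polynomial.eval_pow, Polynomial.eval_X] at hn
      rw [div_le_one h5] at hn
      exact hn
    obtain ⟨k, hk⟩ := h2
    obtain ⟨n₀, hn₀⟩ := eventually_atTop.1 (hq.and hk)
    -- the small numbers
    refine ⟨k + ∑ n ∈ Finset.range n₀, N n, fun n hn => ?_⟩
    rcases lt_or_ge n n₀ with hlt | hge
    · have h5 : N n ≤ ∑ n ∈ Finset.range n₀, N n :=
        Finset.single_le_sum (f := N) (fun _ _ => Nat.zero_le _) (Finset.mem_range.2 hlt)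
      calc N n ≤ 2 ^ N n := Nat.lt_two_pow_self.le
        _ ≤ n ^ N n := Nat.pow_le_pow_left hn _
        _ ≤ n ^ (k + ∑ n ∈ Finset.range n₀, N n) := Nat.pow_le_pow_right (by omega) (by omega)
    · obtain ⟨h5, h6⟩ := hn₀ n hge
      have h7 : N n ≤ n ^ k := by
        have : (N n : ℝ) ≤ ((n ^ k : ℕ) : ℝ) := by
          rw [h5]
          push_cast
          exact h6
        exact_mod_cast this
      exact h7.trans (Nat.pow_le_pow_right (by omega) (by omega))
  · -- exponential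
    right
    push Not at hall
    obtain ⟨J, hJ, hJmax⟩ : ∃ J : Fin m, (1 ≤ (J : ℕ) ∧ P J ≠ 0) ∧ ∀ j : Fin m, J < j → P j = 0 := by
      obtain ⟨j0, hj0⟩ := hall
      obtain ⟨J, hJ, hmax⟩ := Finset.exists_max_image (Finset.univ.filter fun j : Fin m => 1 ≤ (j : ℕ) ∧ P j ≠ 0)
        (fun j => (j : ℕ)) ⟨j0, Finset.mem_filter.2 ⟨Finset.mem_univ _, hj0⟩⟩
      refine ⟨J, (Finset.mem_filter.1 hJ).2, fun j hj => ?_⟩
      by_contra hcon
      have h1 := hmax j (Finset.mem_filter.2 ⟨Finset.mem_univ _, by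
        have : (J : ℕ) < j := hj
        have := (Finset.mem_filter.1 hJ).2.1
        omega, hcon⟩)
      have : (J : ℕ) < j := hj
      omega
    obtain ⟨δ, hδ, hlow⟩ := poly_lower hJ.2
    have hB0 : (0 : ℝ) < (J : ℕ) + 1 := by positivity
    have h1 : Tendsto (fun n : ℕ => ∑ j ∈ Finset.univ.filter (fun j : Fin m => j < J),
        (P j).eval (n : ℝ) * ((j : ℕ) + 1 : ℝ) ^ n / ((J : ℕ) + 1 : ℝ) ^ n) atTop
        (𝓝 (∑ j ∈ Finset.univ.filter (fun j : Fin m => j < J), (0 : ℝ))) := by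
      refine tendsto_finsetSum _ fun j hj => ?_
      have h2 : (j : ℕ) < J := (Finset.mem_filter.1 hj).2
      refine poly_tendsto (P j) (by positivity) ?_
      have : ((j : ℕ) : ℝ) < (J : ℕ) := by exact_mod_cast h2
      linarith
    rw [Finset.sum_const_zero] at h1
    have h2 : ∀ᶠ n : ℕ in atTop, |∑ j ∈ Finset.univ.filter (fun j : Fin m => j < J),
        (P j).eval (n : ℝ) * ((j : ℕ) + 1 : ℝ) ^ n / ((J : ℕ) + 1 : ℝ) ^ n| < δ / 2 := by
      have := h1.abs
      rw [abs_zero] at this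
      exact this.eventually_lt_const (by positivity)
    obtain ⟨c, hc⟩ := exists_nat_gt (2 / δ)
    refine ⟨c, ?_⟩
    filter_upwards [hR, h2, hlow] with n hn hn2 hn3
    have hBn : (0 : ℝ) < ((J : ℕ) + 1 : ℝ) ^ n := by positivity
    have h3 : (N n : ℝ) / ((J : ℕ) + 1 : ℝ) ^ n = (∑ j ∈ Finset.univ.filter (fun j : Fin m => j < J),
        (P j).eval (n : ℝ) * ((j : ℕ) + 1 : ℝ) ^ n / ((J : ℕ) + 1 : ℝ) ^ n) + (P J).eval (n : ℝ) := by
      have h4 : ∑ j, (P j).eval (n : ℝ) * ((j : ℕ) + 1 : ℝ) ^ n =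
          (∑ j ∈ Finset.univ.filter (fun j : Fin m => j < J), (P j).eval (n : ℝ) * ((j : ℕ) + 1 : ℝ) ^ n) +
            (P J).eval (n : ℝ) * ((J : ℕ) + 1 : ℝ) ^ n := by
        rw [← Finset.sum_filter_add_sum_filter_not Finset.univ (fun j : Fin m => j < J)]
        congr 1
        rw [Finset.sum_eq_single J]
        · intro j hj hjJ
          have h5 : ¬ j < J := (Finset.mem_filter.1 hj).2
          have h6 : J < j := lt_of_le_of_ne (not_lt.1 h5) (Ne.symm hjJ)
          rw [hJmax j h6]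
          simp
        · intro h5
          exact absurd (Finset.mem_filter.2 ⟨Finset.mem_univ J, lt_irrefl J⟩ :
            J ∈ Finset.univ.filter (fun j : Fin m => ¬ j < J)) h5
      rw [hn, h4, add_div, Finset.sum_div, mul_div_assoc ((P J).eval (n : ℝ)), div_self hBn.ne', mul_one]
    have h4 : 0 ≤ (N n : ℝ) / ((J : ℕ) + 1 : ℝ) ^ n := by positivity
    rw [h3] at h4
    have h5 := abs_lt.1 hn2
    have h6 : δ ≤ (P J).eval (n : ℝ) := by
      rcases le_abs.1 hn3 with h7 | h7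
      · exact h7
      · linarith [h5.2]
    have h7 : δ / 2 ≤ (N n : ℝ) / ((J : ℕ) + 1 : ℝ) ^ n := by
      rw [h3]
      linarith [h5.1]
    rw [le_div_iff₀ hBn] at h7
    have h8 : (2 : ℝ) ^ n ≤ ((J : ℕ) + 1 : ℝ) ^ n := by
      apply pow_le_pow_left₀ (by norm_num)
      have : (1 : ℝ) ≤ (J : ℕ) := by exact_mod_cast hJ.1
      linarith
    have h9 : (2 : ℝ) ^ n ≤ 2 ^ c * N n := by
      have h10 : (c : ℝ) ≤ 2 ^ c := by exact_mod_cast Nat.lt_two_pow_self.le
      have h11 : 2 / δ ≤ (2 : ℝ) ^ c := hc.le.trans h10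
      have h12 : (2 : ℝ) ^ n ≤ 2 / δ * N n := by
        rw [div_mul_eq_mul_div, le_div_iff₀ hδ]
        nlinarith
      refine h12.trans ?_
      gcongr
    exact_mod_cast h9

/-- **The sharp gap**: at most `n ^ c` models for all `n ≥ 2`, or at least `2 ^ (n - c)` models
for infinitely many `n` -/
theorem gapM {S : Type} [Finite S] {ar : S → ℕ} (φ : SFm (RelLang S ar) 0 0) :
    (∃ c : ℕ, ∀ n, 2 ≤ n → countM φ n ≤ n ^ c) ∨ ∃ c : ℕ, ∀ N, ∃ n, N ≤ n ∧ 2 ^ n ≤ 2 ^ c * countM φ n := by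
  rcases Pool.Agent.Helper83.FM.stmtJumpM S ar φ with ⟨⟨C, hC⟩, -⟩ | ⟨D, hD, h⟩
  · obtain ⟨m, p, hp⟩ := exp_poly φ hC
    rcases gap_num hp with h1 | ⟨c, h1⟩
    · exact Or.inl h1
    · right
      refine ⟨c, fun N => ?_⟩
      obtain ⟨n₀, hn₀⟩ := eventually_atTop.1 h1
      exact ⟨max N n₀, le_max_left _ _, hn₀ _ (le_max_right _ _)⟩
  · right
    refine ⟨0, fun N => ?_⟩
    obtain ⟨n, hn, h2⟩ := h (max N (2 ^ D))
    refine ⟨n, (le_max_left _ _).trans hn, ?_⟩
    have h3 : (2 ^ n) ^ D ≤ countM φ n ^ D := by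
      calc (2 ^ n) ^ D = (2 ^ D) ^ n := by rw [← pow_mul, ← pow_mul, mul_comm]
        _ ≤ n ^ n := Nat.pow_le_pow_left ((le_max_right _ _).trans hn) n
        _ ≤ countM φ n ^ D := h2
    have h4 : 2 ^ n ≤ countM φ n := (Nat.pow_le_pow_iff_left (by omega)).1 h3
    simpa using h4

/-- the same for first-order sentences -/
theorem gapFO {S : Type} [Finite S] {ar : S → ℕ} (χ : (RelLang S ar).Sentence) :
    (∃ c : ℕ, ∀ n, 2 ≤ n → count χ n ≤ n ^ c) ∨ ∃ c : ℕ, ∀ N, ∃ n, N ≤ n ∧ 2 ^ n ≤ 2 ^ c * count χ n := by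
  have h := gapM (toM χ)
  rwa [show countM (toM χ) = count χ from funext (countM_toM χ)] at h

end Pool.Agent.Helper83.EP
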