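import Pool.Agent.Helper83.EP.Asm
import Pool.Agent.Helper20.EP.E3
import Pool.Agent.Helper20.EP.E5

/-!
# Exponential polynomials
-/

set_option autoImplicit false

namespace Pool.Agent.Helper83.EP

open FirstOrder Pool.Agent.Helper20.Spectra Pool.Agent.Helper58.QD Pool.Agent.Helper29.MW Pool.Agent.Helper14.SS
open Pool.Agent.Helper40.MCM

/-- **The exponential regime exactly**: a monadic second-order sentence with at most `C ^ n` models
has `∑ p_j(n) j ^ n` models for all large `n`. -/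
theorem exp_poly {S : Type} [Finite S] {ar : S → ℕ} (φ : SFm (RelLang S ar) 0 0) {C : ℕ}
    (h : ∀ n, 1 ≤ n → countM φ n ≤ C ^ n) :
    ∃ (m : ℕ) (p : Fin m → Polynomial ℚ), ∀ᶠ n : ℕ in Filter.atTop,
      (countM φ n : ℚ) = ∑ j, (p j).eval (n : ℚ) * ((j : ℕ) + 1 : ℚ) ^ n :=
  exp_poly_of (fun ψ => aN_trunc (fun S _ ar ψ => stmtStep0 S ar ψ) ψ) (fun ψ r hr n => cnt_eq ψ r hr n) φ h

end Pool.Agent.Helper83.EP
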