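import Pool.Agent.Helper83.EP.Truth

/-!
# Removal of a point of a large twin class: the structures with the same twin classes
-/

set_option autoImplicit false

namespace Pool.Agent.Helper83.EP

open FirstOrder Pool.Agent.Helper20.Spectra Pool.Agent.Helper58.QD Pool.Agent.Helper29.MW Pool.Agent.Helper14.SS
open Pool.Agent.Helper31.QD (Au)

variable {S : Type} {ar : S → ℕ} {M : Type} [DecidableEq M]

lemma au_trans {R : Interp S ar M} {x y z : M} (h : Au R (Equiv.swap x y)) (h' : Au R (Equiv.swap y z)) :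
    Au R (Equiv.swap x z) := fun s => Helper6.QG.twin_trans (h s) (h' s)

lemma au_refl (R : Interp S ar M) (x : M) : Au R (Equiv.swap x x) := fun s t => Helper6.QG.twin_refl (R s) x t

lemma au_symm {R : Interp S ar M} {x y : M} (h : Au R (Equiv.swap x y)) : Au R (Equiv.swap y x) := by
  rw [Equiv.swap_comm]
  exact h

/-- a point of the class of `x` off a small set -/
lemma fresh [Finite M] {m k : ℕ} {f : M → Fin m} {x : M} (hQ : k + 3 < Nat.card {y // f y = f x}) (F : Finset M)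
    (hF : F.card ≤ k + 3) : ∃ y, f y = f x ∧ y ∉ F := by
  classical
  have := Fintype.ofFinite M
  by_contra hcon
  push Not at hcon
  have h1 : Nat.card {y // f y = f x} ≤ F.card := by
    rw [Nat.card_eq_fintype_card, Fintype.card_subtype]
    exact Finset.card_le_card fun y hy => hcon y (Finset.mem_filter.1 hy).2
  omega

/-- a point of the class of `x` off a tuple and three points -/
lemma fresh' [Finite M] {m k : ℕ} {f : M → Fin m} {x : M} (hQ : k + 3 < Nat.card {y // f y = f x}) {l : ℕ} (hl : l ≤ k)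
    (w : Fin l → M) (a b : M) : ∃ y, f y = f x ∧ y ≠ x ∧ y ≠ a ∧ y ≠ b ∧ ∀ i, w i ≠ y := by
  classical
  obtain ⟨y, hy, hy'⟩ := fresh hQ (Finset.univ.image w ∪ {x, a, b}) (by
    refine (Finset.card_union_le _ _).trans ?_
    have h2 : (Finset.univ.image w).card ≤ l := by
      refine Finset.card_image_le.trans ?_
      simp
    have h4 : ({x, a, b} : Finset M).card ≤ 3 := Finset.card_le_three
    omega)
  simp only [Finset.mem_union, Finset.mem_image, Finset.mem_univ, true_and, Finset.mem_insert,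
    Finset.mem_singleton, not_or, not_exists] at hy'
  exact ⟨y, hy, hy'.2.1, hy'.2.2.1, hy'.2.2.2, hy'.1⟩

lemma swap_off {x y z : M} (h : z ≠ y) : Equiv.swap x y z ≠ x := by
  intro h1
  apply h
  have := congrArg (Equiv.swap x y) h1
  rwa [Equiv.swap_apply_self, Equiv.swap_apply_left] at this

/-- twins in the restriction -/
lemma rs_twin [Finite M] {m k : ℕ} (hk : ∀ s, ar s ≤ k) {R : Interp S ar M} {f : M → Fin m} {x : M}
    (hx : ∀ y, f y = f x → Au R (Equiv.swap x y)) (hQ : k + 3 < Nat.card {y // f y = f x}) (a b : {y // y ≠ x}) :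
    Au (rs x R) (Equiv.swap a b) ↔ Au R (Equiv.swap a.1 b.1) := by
  have h3 : ∀ q : {y // y ≠ x}, ((Equiv.swap a b q : {y // y ≠ x}) : M) = Equiv.swap a.1 b.1 q.1 := by
    intro q
    by_cases hq1 : q = a
    · subst hq1
      rw [Equiv.swap_apply_left, Equiv.swap_apply_left]
    · by_cases hq2 : q = b
      · subst hq2
        rw [Equiv.swap_apply_right, Equiv.swap_apply_right]
      · rw [Equiv.swap_apply_of_ne_of_ne hq1 hq2, Equiv.swap_apply_of_ne_of_ne]
        · exact fun h => hq1 (Subtype.ext h)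
        · exact fun h => hq2 (Subtype.ext h)
  constructor
  · intro hau s w
    obtain ⟨y, hfy, hyx, hya, hyb, hyw⟩ := fresh' hQ (hk s) w a.1 b.1
    have hxy := hx y hfy
    have e1 : Equiv.swap x y ∘ (Equiv.swap a.1 b.1 ∘ w) = Equiv.swap a.1 b.1 ∘ (Equiv.swap x y ∘ w) := by
      funext i
      show Equiv.swap x y (Equiv.swap a.1 b.1 (w i)) = Equiv.swap a.1 b.1 (Equiv.swap x y (w i))
      by_cases h1 : w i = x
      · rw [h1, Equiv.swap_apply_of_ne_of_ne a.2.symm b.2.symm, Equiv.swap_apply_left,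
          Equiv.swap_apply_of_ne_of_ne hya hyb]
      · rw [Equiv.swap_apply_of_ne_of_ne h1 (hyw i)]
        by_cases h2 : w i = a.1
        · rw [h2, Equiv.swap_apply_left, Equiv.swap_apply_of_ne_of_ne b.2 hyb.symm]
        · by_cases h4 : w i = b.1
          · rw [h4, Equiv.swap_apply_right, Equiv.swap_apply_of_ne_of_ne a.2 hya.symm]
          · rw [Equiv.swap_apply_of_ne_of_ne h2 h4, Equiv.swap_apply_of_ne_of_ne h1 (hyw i)]
    let w' : Fin (ar s) → {y // y ≠ x} := fun i => ⟨Equiv.swap x y (w i), swap_off (hyw i)⟩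
    have h1 := hau s w'
    have h2 : rs x R s w' ↔ R s w := hxy s w
    have h4 : rs x R s (Equiv.swap a b ∘ w') ↔ R s (Equiv.swap a.1 b.1 ∘ w) := by
      rw [← hxy s (Equiv.swap a.1 b.1 ∘ w), e1]
      refine Iff.of_eq (congrArg (R s) ?_)
      funext i
      exact h3 (w' i)
    exact (h4.symm.trans h1).trans h2
  · intro hau s w
    have h1 := hau s (fun i => (w i).1)
    refine Iff.trans (Iff.of_eq ?_) h1
    show R s (fun i => ((Equiv.swap a b (w i) : {y // y ≠ x}) : M)) = R s _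
    congr 1
    funext i
    exact h3 (w i)

/-- the structure is determined by its restriction -/
lemma rs_inj [Finite M] {m k : ℕ} (hk : ∀ s, ar s ≤ k) {R R₁ : Interp S ar M} {f : M → Fin m} {x : M}
    (hx : ∀ y, f y = f x → Au R (Equiv.swap x y)) (hx₁ : ∀ y, f y = f x → Au R₁ (Equiv.swap x y))
    (hQ : k + 3 < Nat.card {y // f y = f x}) (h : rs x R = rs x R₁) : R = R₁ := by
  funext s w
  apply propext
  obtain ⟨y, hfy, hyx, -, -, hyw⟩ := fresh' hQ (hk s) w x x
  rw [← hx y hfy s w, ← hx₁ y hfy s w]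
  have h1 := congrFun (congrFun h s) (fun i => ⟨Equiv.swap x y (w i), swap_off (hyw i)⟩)
  exact Iff.of_eq h1

/-- every structure is a restriction -/
lemma rs_surj [Finite M] {m k : ℕ} (hk : ∀ s, ar s ≤ k) {f : M → Fin m} {x : M}
    (hQ : k + 3 < Nat.card {y // f y = f x}) (R' : Interp S ar {y // y ≠ x})
    (hR' : ∀ a b : {y // y ≠ x}, f a.1 = f x → f b.1 = f x → Au R' (Equiv.swap a b)) :
    ∃ R : Interp S ar M, rs x R = R' ∧ ∀ y, f y = f x → Au R (Equiv.swap x y) := by
  classical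
  let R : Interp S ar M := fun s w => ∃ (y : M) (hy : f y = f x ∧ y ≠ x ∧ ∀ i, w i ≠ y),
    R' s (fun i => ⟨Equiv.swap x y (w i), swap_off (hy.2.2 i)⟩)
  have hsw : ∀ (a b : {y // y ≠ x}) (q : {y // y ≠ x}),
      ((Equiv.swap a b q : {y // y ≠ x}) : M) = Equiv.swap a.1 b.1 q.1 := by
    intro a b q
    by_cases hq1 : q = a
    · subst hq1
      rw [Equiv.swap_apply_left, Equiv.swap_apply_left]
    · by_cases hq2 : q = b
      · subst hq2
        rw [Equiv.swap_apply_right, Equiv.swap_apply_right]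
      · rw [Equiv.swap_apply_of_ne_of_ne hq1 hq2, Equiv.swap_apply_of_ne_of_ne]
        · exact fun h => hq1 (Subtype.ext h)
        · exact fun h => hq2 (Subtype.ext h)
  -- independence of the choice
  have hind : ∀ (s : S) (w : Fin (ar s) → M) (y : M) (hy : f y = f x ∧ y ≠ x ∧ ∀ i, w i ≠ y),
      R s w ↔ R' s (fun i => ⟨Equiv.swap x y (w i), swap_off (hy.2.2 i)⟩) := by
    intro s w y hy
    refine ⟨?_, fun h => ⟨y, hy, h⟩⟩
    rintro ⟨z, hz, h⟩
    have h1 := hR' ⟨y, hy.2.1⟩ ⟨z, hz.2.1⟩ hy.1 hz.1 s (fun i => ⟨Equiv.swap x y (w i), swap_off (hy.2.2 i)⟩)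
    rw [← h1]
    convert h using 2
    rename_i i
    apply Subtype.ext
    rw [Function.comp_apply, hsw]
    show Equiv.swap y z (Equiv.swap x y (w i)) = Equiv.swap x z (w i)
    by_cases h2 : w i = x
    · rw [h2, Equiv.swap_apply_left, Equiv.swap_apply_left, Equiv.swap_apply_left]
    · rw [Equiv.swap_apply_of_ne_of_ne h2 (hy.2.2 i), Equiv.swap_apply_of_ne_of_ne (hy.2.2 i) (hz.2.2 i),
        Equiv.swap_apply_of_ne_of_ne h2 (hz.2.2 i)]
  refine ⟨R, ?_, ?_⟩
  · funext s w
    apply propext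
    obtain ⟨y, hfy, hyx, -, -, hyw⟩ := fresh' hQ (hk s) (fun i => (w i).1) x x
    show R s (fun i => (w i).1) ↔ R' s w
    rw [hind s _ y ⟨hfy, hyx, hyw⟩]
    refine Iff.of_eq (congrArg (R' s) ?_)
    funext i
    apply Subtype.ext
    exact Equiv.swap_apply_of_ne_of_ne (w i).2 (hyw i)
  · intro y₀ hy₀ s w
    by_cases hyx0 : y₀ = x
    · subst hyx0
      rw [Equiv.swap_self]
      exact Iff.rfl
    obtain ⟨y, hfy, hyx, hyy, -, hyw⟩ := fresh' hQ (hk s) w y₀ y₀
    have hyw' : ∀ i, (Equiv.swap x y₀ ∘ w) i ≠ y := by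
      intro i
      show Equiv.swap x y₀ (w i) ≠ y
      by_cases h2 : w i = x
      · rw [h2, Equiv.swap_apply_left]
        exact hyy.symm
      · by_cases h4 : w i = y₀
        · rw [h4, Equiv.swap_apply_right]
          exact hyx.symm
        · rw [Equiv.swap_apply_of_ne_of_ne h2 h4]
          exact hyw i
    rw [hind s w y ⟨hfy, hyx, hyw⟩, hind s _ y ⟨hfy, hyx, hyw'⟩]
    have h1 := hR' ⟨y, hyx⟩ ⟨y₀, hyx0⟩ hfy hy₀ s (fun i => ⟨Equiv.swap x y (w i), swap_off (hyw i)⟩)
    rw [← h1]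
    refine Iff.of_eq (congrArg (R' s) ?_)
    funext i
    apply Subtype.ext
    refine Eq.trans ?_ (hsw ⟨y, hyx⟩ ⟨y₀, hyx0⟩ ⟨Equiv.swap x y (w i), swap_off (hyw i)⟩).symm
    show Equiv.swap x y (Equiv.swap x y₀ (w i)) = Equiv.swap y y₀ (Equiv.swap x y (w i))
    by_cases h2 : w i = x
    · rw [h2, Equiv.swap_apply_left, Equiv.swap_apply_left, Equiv.swap_apply_left,
        Equiv.swap_apply_of_ne_of_ne hyx0 hyy.symm]
    · by_cases h4 : w i = y₀
      · rw [h4, Equiv.swap_apply_right, Equiv.swap_apply_left, Equiv.swap_apply_of_ne_of_ne hyx0 hyy.symm,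
          Equiv.swap_apply_right]
      · rw [Equiv.swap_apply_of_ne_of_ne h2 h4, Equiv.swap_apply_of_ne_of_ne h2 (hyw i),
          Equiv.swap_apply_of_ne_of_ne (hyw i) h4]

/-- labels of the restriction -/
lemma lab_rs [Finite M] {m k : ℕ} (hk : ∀ s, ar s ≤ k) {R : Interp S ar M} {f : M → Fin m} {x : M}
    (hQ : k + 3 < Nat.card {y // f y = f x}) (hx : ∀ y, f y = f x → Au R (Equiv.swap x y)) :
    Lab R f ↔ Lab (rs x R) (fun y : {y // y ≠ x} => f y.1) := by
  constructor
  · intro h a b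
    rw [rs_twin hk hx hQ a b]
    exact h a.1 b.1
  · intro h
    have h1 : ∀ a b, a ≠ x → b ≠ x → (f a = f b ↔ Au R (Equiv.swap a b)) := by
      intro a b ha hb
      have := h ⟨a, ha⟩ ⟨b, hb⟩
      rwa [rs_twin hk hx hQ] at this
    have h2 : ∀ b, b ≠ x → (f x = f b ↔ Au R (Equiv.swap x b)) := by
      intro b hb
      refine ⟨fun h => hx b h.symm, fun h => ?_⟩
      obtain ⟨y, hfy, hyx, hyb, -, -⟩ := fresh' hQ (Nat.zero_le k) (Fin.elim0 : Fin 0 → M) b b
      rw [← hfy]
      exact (h1 y b hyx hb).2 (au_trans (au_symm (hx y hfy)) h)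
    intro a b
    by_cases ha : a = x
    · subst ha
      by_cases hb : b = a
      · subst hb
        exact ⟨fun _ => au_refl R b, fun _ => rfl⟩
      · exact h2 b hb
    · by_cases hb : b = x
      · subst hb
        exact ⟨fun h => au_symm ((h2 a ha).1 h.symm), fun h => ((h2 a ha).2 (au_symm h)).symm⟩
      · exact h1 a b ha hb

/-- E1 + E2 -/
theorem stmtStep0 (S : Type) [Finite S] (ar : S → ℕ) (ψ : MFm S ar 0 0) : ∃ Q : ℕ, 1 ≤ Q ∧
    ∀ (m : ℕ) (M : Type) [Finite M] [DecidableEq M] (f : M → Fin m) (x : M),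
      Q < Nat.card {y // f y = f x} → aN ψ f = aN ψ (fun y : {y // y ≠ x} => f y.1) := by
  obtain ⟨k, hk⟩ : ∃ k, ∀ s, ar s ≤ k := by
    have := Fintype.ofFinite S
    exact ⟨Finset.univ.sup ar, fun s => Finset.le_sup (f := ar) (Finset.mem_univ s)⟩
  obtain ⟨q, hq, hT⟩ := truth_drop ψ
  refine ⟨q + (k + 3), by omega, fun m M _ _ f x hQ => ?_⟩
  have hQ' : k + 3 < Nat.card {y // f y = f x} := by omega
  have hab : ∀ {R : Interp S ar M}, (∀ y, f y = f x → Au R (Equiv.swap x y)) →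
      (MSat R ψ ↔ MSat (rs x R) ψ) := by
    intro R hx
    exact hT M R (fun y => f y = f x) x rfl (fun a b ha hb => au_trans (au_symm (hx a ha)) (hx b hb)) (by omega)
  unfold aN
  refine Nat.card_eq_of_bijective (fun R => ⟨rs x R.1, ?_, ?_⟩) ⟨?_, ?_⟩
  · exact (lab_rs hk hQ' (fun y hy => (R.2.1 x y).1 hy.symm)).1 R.2.1
  · exact (hab (fun y hy => (R.2.1 x y).1 hy.symm)).1 R.2.2
  · intro R R₁ h
    apply Subtype.ext
    exact rs_inj hk (fun y hy => (R.2.1 x y).1 hy.symm) (fun y hy => (R₁.2.1 x y).1 hy.symm) hQ'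
      (congrArg Subtype.val h)
  · rintro ⟨R', hL, hM⟩
    obtain ⟨R, hR, hx⟩ := rs_surj hk hQ' R' (fun a b ha hb => (hL a b).1 (ha.trans hb.symm))
    subst hR
    exact ⟨⟨R, (lab_rs hk hQ' hx).2 hL, (hab hx).2 hM⟩, rfl⟩

end Pool.Agent.Helper83.EP
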