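import Pool.Agent.Helper83.EP.Defs

/-!
# Removal of a point of a large twin class: truth
-/

set_option autoImplicit false

namespace Pool.Agent.Helper83.EP

open FirstOrder Pool.Agent.Helper20.Spectra Pool.Agent.Helper58.QD Pool.Agent.Helper29.MW Pool.Agent.Helper14.SS
open Pool.Agent.Helper31.QD (Au)
open Pool.Agent.Helper38.MC (mp bp bp_eq ext inv_choice)

variable {S : Type} {ar : S → ℕ}

/-- the restriction to the points other than `x` -/
def rs {M : Type} (x : M) (R : Interp S ar M) : Interp S ar {y // y ≠ x} := fun s w => R s (fun i => (w i).1)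

theorem truth_drop (ψ : MFm S ar 0 0) : ∃ q, 1 ≤ q ∧ ∀ (M : Type) [Finite M] [DecidableEq M]
    (R : Interp S ar M) (C : M → Prop) (x : M), C x → (∀ a b, C a → C b → Au R (Equiv.swap a b)) →
    q < Nat.card {y // C y} → (MSat R ψ ↔ MSat (rs x R) ψ) := by
  classical
  obtain ⟨q, hq, h⟩ := Helper6.MC.pumpXM Unit ψ
  refine ⟨q, hq, fun M _ _ R C x hx hC hqC => ?_⟩
  have := Fintype.ofFinite M
  have hsup := Helper31.FM.sup_of_twins (R := R) (C := Finset.univ.filter C) (by
    intro a ha b hb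
    exact hC a b (Finset.mem_filter.1 ha).2 (Finset.mem_filter.1 hb).2)
  let N : Type := {y : M // ¬ C y}
  let ι : Type := {y : M // C y}
  let κ : Type := {y : M // C y ∧ y ≠ x}
  let j : κ → ι := fun y => ⟨y.1, y.2.1⟩
  have hj : Function.Injective j := fun a b hab =>
    Subtype.ext (congrArg (fun z : ι => (z : M)) hab)
  let e1 : N ⊕ ι × Unit ≃ M :=
    ((Equiv.sumComm _ _).trans (Equiv.sumCongr (Equiv.prodPUnit ι) (Equiv.refl _))).trans
      (Equiv.sumCompl (fun z => C z))
  have he1 : ∀ a : N, e1 (Sum.inl a) = a.1 := fun a => rfl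
  have he2 : ∀ p : ι × Unit, e1 (Sum.inr p) = p.1.1 := fun p => rfl
  let R0 : Interp S ar (N ⊕ ι × Unit) := fun s w => R s (e1 ∘ w)
  have hM0 : MSat R ψ ↔ MSat R0 ψ := MSat.iso R e1.symm ψ
  have hR0 : ∀ π : Equiv.Perm ι, Au R0 (bp π) := by
    intro π s w
    have h1 := hsup s (e1.symm.trans ((bp π).trans e1)) (by
      intro z hz
      rw [Finset.mem_compl, Finset.mem_filter] at hz
      have hz' : z = e1 (Sum.inl ⟨z, fun hc => hz ⟨Finset.mem_univ _, hc⟩⟩) := rfl
      rw [hz']
      show e1 (bp π (e1.symm (e1 (Sum.inl _)))) = _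
      rw [Equiv.symm_apply_apply, bp_eq]
      rfl) (e1 ∘ w)
    show R s (e1 ∘ (bp π ∘ w)) ↔ R s (e1 ∘ w)
    rw [← h1]
    have : (e1.symm.trans ((bp π).trans e1)) ∘ (e1 ∘ w) = e1 ∘ (bp π ∘ w) := by
      funext a
      show e1 (bp π (e1.symm (e1 (w a)))) = _
      rw [Equiv.symm_apply_apply]
      rfl
    rw [this]
  have hcι : q ≤ Nat.card ι := hqC.le
  have hcκ : q ≤ Nat.card κ := by
    have h2 : Nat.card κ + 1 = Nat.card ι := by
      have e : κ ≃ {y : ι // y ≠ ⟨x, hx⟩} :=
        { toFun := fun y => ⟨⟨y.1, y.2.1⟩, fun h => y.2.2 (congrArg Subtype.val h)⟩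
          invFun := fun y => ⟨y.1.1, y.1.2, fun h => y.2 (Subtype.ext h)⟩
          left_inv := fun y => rfl
          right_inv := fun y => rfl }
      rw [Nat.card_congr e, Nat.card_eq_fintype_card, Nat.card_eq_fintype_card]
      have := Fintype.card_subtype_compl (fun y : ι => y = ⟨x, hx⟩)
      rw [Fintype.card_subtype_eq] at this
      have h3 : 0 < Fintype.card ι := Fintype.card_pos_iff.2 ⟨⟨x, hx⟩⟩
      have h4 : Fintype.card {y : ι // y ≠ ⟨x, hx⟩} = Fintype.card ι - 1 := this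
      omega
    have h3 : q < Nat.card ι := hqC
    omega
  have h2 := h N ι κ R0 hR0 hcι hcκ
  rw [Pool.Agent.Helper83.FM.ext_down hR0 j hj] at h2
  -- the isomorphism
  have hfW : ∀ a : N ⊕ κ × Unit, e1 (mp j a) ≠ x := by
    intro a
    rcases a with a | ⟨a, b⟩
    · show (a.1 : M) ≠ x
      rintro h3
      exact a.2 (h3 ▸ hx)
    · exact a.2.2
  let f : N ⊕ κ × Unit ≃ {y // y ≠ x} := Equiv.ofBijective (fun a => ⟨e1 (mp j a), hfW a⟩) (by
    constructor
    · intro a b hab
      have h3 : e1 (mp j a) = e1 (mp j b) := congrArg Subtype.val hab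
      have h4 := e1.injective h3
      rcases a with a | ⟨a, a'⟩ <;> rcases b with b | ⟨b, b'⟩
      · exact congrArg Sum.inl (Sum.inl_injective h4)
      · exact absurd h4 (by simp [mp])
      · exact absurd h4 (by simp [mp])
      · have h5 : j a = j b := congrArg Prod.fst (Sum.inr_injective h4)
        rw [hj h5]
    · intro w
      by_cases hw : C w.1
      · exact ⟨Sum.inr (⟨w.1, hw, w.2⟩, ()), Subtype.ext rfl⟩
      · exact ⟨Sum.inl ⟨w.1, hw⟩, Subtype.ext rfl⟩)
  have h3 := MSat.iso (fun (s : S) (w : Fin (ar s) → N ⊕ κ × Unit) => R0 s (mp j ∘ w)) f ψ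
  have h4 : (fun (s : S) (v : Fin (ar s) → {y // y ≠ x}) =>
      R0 s (mp j ∘ fun i => f.symm (v i))) = rs x R := by
    funext s v
    show R s (e1 ∘ (mp j ∘ fun i => f.symm (v i))) = R s (fun i => (v i).1)
    congr 1
    funext i
    have h5 : f (f.symm (v i)) = v i := f.apply_symm_apply _
    exact congrArg Subtype.val h5
  rw [h4] at h3
  exact hM0.trans (h2.trans h3)

end Pool.Agent.Helper83.EP
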